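import Pool.Agent.Lib.MP_a78e1f_lc.R.Iface

/-!
# RFM: the map `rmap f`
-/

universe u v w

open Cardinal Filter MeasureTheory

namespace Pool.Agent.Lib.MP_a78e1f_lc.H74

open Pool.Agent.Lib.MP_100a6c_lc
open Pool.Agent.Lib.MP_c5d73d_lc.F (pr)
open Pool.Agent.Lib.MP_e6fef2_lc
open Pool.Agent.Lib.MP_6d445e_gt
open Pool.Agent.Lib.MP_a78e1f_lc

instance : IsProbabilityMeasure cm := by
  unfold cm
  infer_instance

section

variable {A C : Type u} [CompleteBooleanAlgebra A] [CompleteBooleanAlgebra C] {f : A → C}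

theorem pulls_eq (hf : IsCE f) (E : Set (Pt A)) : pulls f E = {p | (p.1.pull hf, p.2) ∈ E} := by
  ext p
  constructor
  · rintro ⟨g, hg, h⟩
    have : g = p.1.pull hf := by
      apply Ult.ext
      ext a
      exact hg a
    rw [this] at h
    exact h
  · intro h
    exact ⟨p.1.pull hf, fun a => Iff.rfl, h⟩

theorem sec_pulls (hf : IsCE f) (E : Set (Pt A)) (h : Ult C) :
    sec (pulls f E) h = sec E (h.pull hf) := by
  rw [pulls_eq hf]
  rfl

theorem measurable_pull (hf : IsCE f) : Measurable fun h : Ult C => h.pull hf := by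
  rintro S ⟨a, ha⟩
  exact ⟨f a, ae_pull hf ha⟩

theorem meas_pulls (hf : IsCE f) {E : Set (Pt A)} (hE : MeasurableSet E) :
    MeasurableSet (pulls f E) := by
  rw [pulls_eq hf]
  have : Measurable fun p : Pt C => ((p.1.pull hf, p.2) : Pt A) :=
    ((measurable_pull hf).comp measurable_fst).prodMk measurable_snd
  exact this hE

theorem nl_pulls (hf : IsCE f) {E : Set (Pt A)} (hE : nl E) : nl (pulls f E) := by
  have := ae_pull hf hE
  refine this.mono fun h hh => ?_
  rw [sec_pulls hf]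
  exact hh

theorem real_zero_iff (s : Set Cs) : cm.real s = 0 ↔ cm s = 0 := by
  rw [measureReal_def, ENNReal.toReal_eq_zero_iff]
  constructor
  · rintro (h | h)
    · exact h
    · exact absurd h (measure_ne_top _ _)
  · intro h
    exact Or.inl h

theorem real_pos_iff (s : Set Cs) : 0 < cm.real s ↔ cm s ≠ 0 := by
  rw [← not_iff_not, not_lt, not_not, ← real_zero_iff]
  exact ⟨fun h => le_antisymm h measureReal_nonneg, fun h => h.le⟩

/-- the value of a property of the measure of the sections -/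
theorem exists_val (hM : MeasStatement.{u}) {E : Set (Pt A)} (hE : MeasurableSet E)
    (S : Set ℝ) (hS : MeasurableSet S) :
    ∃ b : A, ∀ᶠ g in ae A, b ∈ g ↔ cm.real (sec E g) ∈ S :=
  ((hM A).1 E hE) hS

theorem pull_ne_bot (hf : IsCE f) {a : A} (ha : a ≠ ⊥) : f a ≠ ⊥ := by
  intro h
  apply ha
  apply hf.inj
  rw [h, (all_alg A C f hf).2.1]

theorem eq_bot_of_ae {a : A} (h : ∀ᶠ g in ae A, a ∉ g) : a = ⊥ :=
  le_bot_iff.1 (le_of_ae (h.mono fun _ hg hag => absurd hag hg))

theorem nl_of_pulls (hM : MeasStatement.{u}) (hf : IsCE f) {E : Set (Pt A)}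
    (hE : MeasurableSet E) (h : nl (pulls f E)) : nl E := by
  obtain ⟨b, hb⟩ := exists_val hM hE (Set.Ioi 0) measurableSet_Ioi
  have hb' := ae_pull hf hb
  have h1 : f b = ⊥ := by
    apply eq_bot_of_ae
    filter_upwards [hb', h] with k h1 h2 h3
    rw [sec_pulls hf] at h2
    have h4 : b ∈ k.pull hf := h3
    rw [h1, Set.mem_Ioi, real_pos_iff] at h4
    exact h4 h2
  have h2 : b = ⊥ := by
    by_contra hne
    exact pull_ne_bot hf hne h1
  filter_upwards [hb] with g hg
  rw [h2] at hg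
  by_contra hne
  exact g.not_bot (hg.2 ((real_pos_iff _).2 hne))

theorem pulls_diff (hf : IsCE f) (E F : Set (Pt A)) :
    pulls f (E \ F) = pulls f E \ pulls f F := by
  rw [pulls_eq hf, pulls_eq hf, pulls_eq hf]
  rfl

theorem pulls_compl (hf : IsCE f) (E : Set (Pt A)) : pulls f Eᶜ = (pulls f E)ᶜ := by
  rw [pulls_eq hf, pulls_eq hf]
  rfl

theorem mkR_congr (hR : RapiStatement.{u}) {E F : Set (Pt A)} (hE : MeasurableSet E)
    (hF : MeasurableSet F) (h1 : nl (E \ F)) (h2 : nl (F \ E)) : mkR E = mkR F :=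
  le_antisymm (((hR A).1 E F hE hF).2 h1) (((hR A).1 F E hF hE).2 h2)

/-- (3) -/
theorem rmap_mkR (hR : RapiStatement.{u}) (hP : RepStatement.{u}) (hf : IsCE f)
    {E : Set (Pt A)} (hE : MeasurableSet E) : rmap f (mkR E) = mkR (pulls f E) := by
  unfold rmap
  obtain ⟨h1, h2⟩ := (hP A).2.1 E hE
  have h3 := ((hP A).1 (mkR E)).1
  refine mkR_congr hR (meas_pulls hf h3) (meas_pulls hf hE) ?_ ?_
  · rw [← pulls_diff hf]
    exact nl_pulls hf h1
  · rw [← pulls_diff hf]
    exact nl_pulls hf h2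

theorem rmap_le_iff (hR : RapiStatement.{u}) (hP : RepStatement.{u}) (hM : MeasStatement.{u})
    (hf : IsCE f) (r s : RA A) : rmap f r ≤ rmap f s ↔ r ≤ s := by
  have h1 := (hP A).1 r
  have h2 := (hP A).1 s
  have h3 : r ≤ s ↔ nl (rep r \ rep s) := by
    conv_lhs => rw [← h1.2, ← h2.2]
    exact (hR A).1 _ _ h1.1 h2.1
  rw [h3]
  unfold rmap
  rw [(hR C).1 _ _ (meas_pulls hf h1.1) (meas_pulls hf h2.1), ← pulls_diff hf]
  exact ⟨fun h => nl_of_pulls hM hf (h1.1.diff h2.1) h, fun h => nl_pulls hf h⟩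

/-- a measurable set which is not null has large sections somewhere -/
theorem exists_large (hM : MeasStatement.{u}) {E : Set (Pt A)} (hE : MeasurableSet E)
    (h : ¬ nl E) : ∃ c : A, c ≠ ⊥ ∧ ∃ q : ℝ, 0 < q ∧ ∀ᶠ g in ae A, c ∈ g → q < cm.real (sec E g) := by
  by_contra hcon
  push Not at hcon
  apply h
  have key : ∀ n : ℕ, ∀ᶠ g in ae A, cm.real (sec E g) ≤ 1 / ((n : ℝ) + 1) := by
    intro n
    obtain ⟨b, hb⟩ := exists_val hM hE (Set.Ioi (1 / ((n : ℝ) + 1))) measurableSet_Ioi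
    by_cases h0 : b = ⊥
    · filter_upwards [hb] with g hg
      rw [h0] at hg
      by_contra hne
      exact g.not_bot (hg.2 (not_le.1 hne))
    · have h1 := hcon b h0 (1 / ((n : ℝ) + 1)) (by positivity)
      exfalso
      apply h1
      filter_upwards [hb] with g hg h2
      exact not_le.2 (hg.1 h2.1) h2.2
  filter_upwards [ae_all key] with g hg
  rw [← real_zero_iff]
  refine le_antisymm ?_ measureReal_nonneg
  exact ge_of_tendsto' tendsto_one_div_add_atTop_nhds_zero_nat hg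

theorem rmap_compl (hR : RapiStatement.{u}) (hP : RepStatement.{u}) (hf : IsCE f) (r : RA A) :
    rmap f rᶜ = (rmap f r)ᶜ := by
  have h1 := (hP A).1 r
  conv_lhs => rw [← h1.2, ← (hR A).2.2.1 _ h1.1]
  rw [rmap_mkR hR hP hf h1.1.compl, pulls_compl hf, (hR C).2.2.1 _ (meas_pulls hf h1.1)]
  rfl

theorem rmap_sSup (hR : RapiStatement.{u}) (hP : RepStatement.{u}) (hM : MeasStatement.{u})
    (hf : IsCE f) (s : Set (RA A)) : rmap f (sSup s) = ⨆ a ∈ s, rmap f a := by
  apply le_antisymm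
  · by_contra hcon
    have h1 : rmap f (sSup s) ⊓ (⨆ a ∈ s, rmap f a)ᶜ ≠ ⊥ := by
      intro h2
      apply hcon
      rw [← compl_compl (⨆ a ∈ s, rmap f a), le_compl_iff_disjoint_right, disjoint_iff]
      exact h2
    obtain ⟨P, ⟨hPm, hPn⟩, hp⟩ : ∃ P : Set (Pt C), (MeasurableSet P ∧ ¬ nl P) ∧
        mkR P ≤ rmap f (sSup s) ⊓ (⨆ a ∈ s, rmap f a)ᶜ := by
      obtain ⟨p, hp⟩ := (hR C).2.2.2.2.2.2.2.2.1 _ h1
      exact ⟨p.1, p.2, hp⟩
    have hp1 := hp.trans inf_le_left
    have hp2 := hp.trans inf_le_right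
    have hr := (hP A).1 (sSup s)
    -- the set `p ∩ pulls f (rep r)`
    have hE : MeasurableSet (P ∩ pulls f (rep (sSup s))) := hPm.inter (meas_pulls hf hr.1)
    have hsub : nl (P \ pulls f (rep (sSup s))) := by
      have h3 := hp1
      unfold rmap at h3
      exact ((hR C).1 _ _ hPm (meas_pulls hf hr.1)).1 h3
    have hE0 : ¬ nl (P ∩ pulls f (rep (sSup s))) := by
      intro h3
      apply hPn
      refine nl_mono ?_ (nl_union h3 hsub)
      intro x hx
      by_cases h4 : x ∈ pulls f (rep (sSup s))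
      · exact Or.inl ⟨hx, h4⟩
      · exact Or.inr ⟨hx, h4⟩
    obtain ⟨c, hc0, q, hq0, hcq⟩ := exists_large hM hE hE0
    have hpc : prj f c ≠ ⊥ := fun h3 => hc0 (((all_alg A C f hf).2.2.2.2.2.2.2.2.2.2.2.2.2.2.2.2.2.1 c).1 h3)
    obtain ⟨b, hb0, hb1, s', hs'⟩ := (hP A).2.2 s (fun t => t.1) q hq0 (prj f c) hpc
    have hes : (⨆ t : s, t.1) = sSup s := by rw [sSup_eq_iSup']
    simp only [hes] at hs'
    have hne : c ⊓ f b ≠ ⊥ := by
      intro h3
      have h4 := (all_alg A C f hf).2.2.2.2.2.2.2.2.2.2.2.2.2.2.2.2.1 c b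
      rw [h3, ((all_alg A C f hf).2.2.2.2.2.2.2.2.2.2.2.2.2.2.2.2.2.1 ⊥).2 rfl,
        inf_eq_right.2 hb1] at h4
      exact hb0 h4.symm
    have hdis : ∀ t : s, nl (P ∩ pulls f (rep t.1)) := by
      intro t
      have h3 := (hP A).1 t.1
      have h4 : mkR P ⊓ rmap f t.1 = ⊥ := by
        have h5 : rmap f t.1 ≤ ⨆ a ∈ s, rmap f a := le_iSup₂ (f := fun a (_ : a ∈ s) => rmap f a) t.1 t.2
        exact disjoint_iff.1 ((disjoint_compl_left.mono_left hp2).mono_right h5)
      have h5 := (hR C).2.1 P _ hPm (meas_pulls hf h3.1)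
      have h6 : mkR (P ∩ pulls f (rep t.1)) = ⊥ := by
        rw [h5]
        exact h4
      exact ((hR C).2.2.2.2.2.2.1 _ (hPm.inter (meas_pulls hf h3.1))).1 h6
    have hfin : ∀ᶠ h in ae C, ∀ t ∈ s', cm (sec (P ∩ pulls f (rep (t : s).1)) h) = 0 := by
      rw [Filter.eventually_all_finset]
      intro t _
      exact hdis t
    obtain ⟨h, hh, h2, h3, h4⟩ := exists_of_ae (hcq.and ((ae_pull hf hs').and hfin)) hne
    rw [h.mem_inf] at hh
    have h5 := h2 hh.1
    have h6 := h3 hh.2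
    have h7 : sec (P ∩ pulls f (rep (sSup s))) h ⊆
        sec (rep (sSup s) \ ⋃ t ∈ s', rep (t : s).1) (h.pull hf) ∪
        ⋃ t ∈ s', sec (P ∩ pulls f (rep (t : s).1)) h := by
      intro x hx
      have hx1 : (h, x) ∈ P := hx.1
      have hx2 : (h.pull hf, x) ∈ rep (sSup s) := by
        have := hx.2
        rw [pulls_eq hf] at this
        exact this
      by_cases hx3 : ∃ t ∈ s', (h.pull hf, x) ∈ rep (t : s).1
      · obtain ⟨t, ht, hx4⟩ := hx3
        refine Or.inr (Set.mem_iUnion₂.2 ⟨t, ht, hx1, ?_⟩)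
        rw [pulls_eq hf]
        exact hx4
      · refine Or.inl ⟨hx2, fun hx4 => hx3 ?_⟩
        obtain ⟨t, ht, hx5⟩ := Set.mem_iUnion₂.1 hx4
        exact ⟨t, ht, hx5⟩
    have h8 : cm (⋃ t ∈ s', sec (P ∩ pulls f (rep (t : s).1)) h) = 0 := by
      refine le_antisymm ((measure_biUnion_finset_le s' _).trans ?_) zero_le
      rw [Finset.sum_eq_zero h4]
    have h9 := measureReal_mono (μ := cm) h7
    have h10 := measureReal_union_le (μ := cm)
      (sec (rep (sSup s) \ ⋃ t ∈ s', rep (t : s).1) (h.pull hf))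
      (⋃ t ∈ s', sec (P ∩ pulls f (rep (t : s).1)) h)
    have h11 := (real_zero_iff _).2 h8
    linarith
  · refine iSup₂_le fun a ha => ?_
    exact (rmap_le_iff hR hP hM hf _ _).2 (le_sSup ha)

theorem isCE_rmap (hR : RapiStatement.{u}) (hP : RepStatement.{u}) (hM : MeasStatement.{u})
    (hf : IsCE f) : IsCE (rmap f) where
  inj _ _ h := le_antisymm ((rmap_le_iff hR hP hM hf _ _).1 h.le)
    ((rmap_le_iff hR hP hM hf _ _).1 h.ge)
  compl := rmap_compl hR hP hf
  sSup := rmap_sSup hR hP hM hf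

/-- the sections of `rep (rmap f r)` -/
theorem rep_rmap (hP : RepStatement.{u}) (hf : IsCE f) (r : RA A) :
    ∀ᶠ h in ae C, cm.real (sec (rep (rmap f r)) h) = cm.real (sec (rep r) (h.pull hf)) := by
  have h1 := (hP A).1 r
  obtain ⟨h2, h3⟩ := (hP C).2.1 (pulls f (rep r)) (meas_pulls hf h1.1)
  filter_upwards [h2, h3] with h h4 h5
  rw [← sec_pulls hf]
  have h6 : sec (rep (rmap f r)) h =ᵐ[cm] sec (pulls f (rep r)) h := by
    refine ae_eq_set.2 ⟨?_, ?_⟩
    · exact h4
    · exact h5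
  exact measureReal_congr h6

theorem kap_le_iff (hR : RapiStatement.{u}) (hM : MeasStatement.{u}) (a : A) {E : Set (Pt A)}
    (hE : MeasurableSet E) : kap a ≤ mkR E ↔ ∀ᶠ g in ae A, a ∈ g → cm.real (sec Eᶜ g) = 0 := by
  unfold kap
  rw [(hR A).1 _ _ ((hM A).2.2.2.1 a) hE]
  unfold nl
  refine eventually_congr (Filter.Eventually.of_forall fun g => ?_)
  constructor
  · intro h ha
    rw [real_zero_iff]
    refine measure_mono_null ?_ h
    intro x hx
    exact ⟨ha, hx⟩
  · intro h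
    by_cases ha : a ∈ g
    · have := (real_zero_iff _).1 (h ha)
      refine measure_mono_null ?_ this
      intro x hx
      exact hx.2
    · have : sec ({p : Pt A | a ∈ p.1} \ E) g = ∅ := by
        ext x
        constructor
        · rintro ⟨h1, _⟩
          exact absurd h1 ha
        · intro h1
          exact absurd h1 (Set.notMem_empty x)
      rw [this, measure_empty]

theorem prj_rmap_kap (hR : RapiStatement.{u}) (hP : RepStatement.{u}) (hM : MeasStatement.{u})
    (hf : IsCE f) (c : C) : prj (rmap f) (kap c) = kap (prj f c) := by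
  have hr := isCE_rmap hR hP hM hf
  have key : ∀ r : RA A, kap c ≤ rmap f r ↔ kap (prj f c) ≤ r := by
    intro r
    have h1 := (hP A).1 r
    obtain ⟨b, hb⟩ := exists_val hM h1.1.compl {0} (measurableSet_singleton 0)
    have hb' := ae_pull hf hb
    have e1 : kap (prj f c) ≤ r ↔ ∀ᶠ g in ae A, prj f c ∈ g → cm.real (sec (rep r)ᶜ g) = 0 := by
      conv_lhs => rw [← h1.2]
      exact kap_le_iff hR hM _ h1.1
    have e2 : kap c ≤ rmap f r ↔
        ∀ᶠ h in ae C, c ∈ h → cm.real (sec (pulls f (rep r))ᶜ h) = 0 := by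
      unfold rmap
      exact kap_le_iff hR hM _ (meas_pulls hf h1.1)
    rw [e1, e2]
    constructor
    · intro h
      have h2 : c ≤ f b := by
        apply le_of_ae
        filter_upwards [h, hb'] with k h3 h4 h5
        have h6 := h3 h5
        rw [← pulls_compl hf, sec_pulls hf] at h6
        exact h4.2 h6
      have h3 : prj f c ≤ b := ((all_alg A C f hf).2.2.2.2.2.2.2.2.2.2.1 c b).2 h2
      filter_upwards [hb] with g h4 h5
      exact h4.1 (g.mono h3 h5)
    · intro h
      have h2 : prj f c ≤ b := by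
        apply le_of_ae
        filter_upwards [h, hb] with g h3 h4 h5
        exact h4.2 (h3 h5)
      have h3 : c ≤ f b := ((all_alg A C f hf).2.2.2.2.2.2.2.2.2.2.1 c b).1 h2
      filter_upwards [hb'] with k h4 h5
      rw [← pulls_compl hf, sec_pulls hf]
      exact h4.1 (k.mono h3 h5)
  have key2 : ∀ r : RA A, prj (rmap f) (kap c) ≤ r ↔ kap (prj f c) ≤ r := by
    intro r
    rw [(all_alg (RA A) (RA C) (rmap f) hr).2.2.2.2.2.2.2.2.2.2.1 (kap c) r]
    exact key r
  exact le_antisymm ((key2 _).2 le_rfl) ((key2 _).1 le_rfl)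

theorem pulls_id (E : Set (Pt A)) : pulls (fun a : A => a) E = E := by
  ext p
  constructor
  · rintro ⟨g, hg, h⟩
    have : g = p.1 := by
      apply Ult.ext
      ext a
      exact hg a
    rw [this] at h
    exact h
  · intro h
    exact ⟨p.1, fun a => Iff.rfl, h⟩

end

theorem rfm (hR : RapiStatement.{u}) (hP : RepStatement.{u}) (hK : KapStatement.{u})
    (hM : MeasStatement.{u}) (hQ : MqStatement.{u}) : RfmStatement.{u} := by
  intro A C _ _ f hf
  have hr := isCE_rmap hR hP hM hf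
  have hkA := (hK A).1
  have hkC := (hK C).1
  have hkap : ∀ a, rmap f (kap a) = kap (f a) := by
    intro a
    unfold kap
    rw [rmap_mkR hR hP hf ((hM A).2.2.2.1 a), pulls_eq hf]
    rfl
  refine ⟨hr, fun E hE => meas_pulls hf hE, fun E hE => rmap_mkR hR hP hf hE,
    fun E hE => nl_pulls hf hE, hkap, ?_, ?_, prj_rmap_kap hR hP hM hf, ?_, ?_, ?_⟩
  · intro σ
    unfold cy
    rw [rmap_mkR hR hP hf ((hM A).2.2.2.2.1 σ), pulls_eq hf]
    rfl
  · intro r q
    apply eq_of_ae
    filter_upwards [ae_pull hf ((hQ A).1 r q), (hQ C).1 (rmap f r) q, rep_rmap hP hf r]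
      with h h1 h2 h3
    rw [h2, h3]
    exact h1
  · intro e
    have key : ∀ a : A, prj kap (prj (rmap f) e) ≤ a ↔ prj f (prj kap e) ≤ a := by
      intro a
      rw [(all_alg A (RA A) kap hkA).2.2.2.2.2.2.2.2.2.2.1 _ a,
        (all_alg (RA A) (RA C) (rmap f) hr).2.2.2.2.2.2.2.2.2.2.1 e _, hkap,
        (all_alg A C f hf).2.2.2.2.2.2.2.2.2.2.1 _ a,
        (all_alg C (RA C) kap hkC).2.2.2.2.2.2.2.2.2.2.1 _ _]
    exact le_antisymm ((key _).2 le_rfl) ((key _).1 le_rfl)
  · funext r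
    unfold rmap
    rw [pulls_id]
    exact ((hP A).1 r).2
  · intro B _ g hg
    funext r
    have h1 := (hP A).1 r
    have h2 : rmap g (rmap f r) = mkR (pulls g (pulls f (rep r))) := by
      have : rmap f r = mkR (pulls f (rep r)) := rfl
      rw [this]
      exact rmap_mkR hR hP hg (meas_pulls hf h1.1)
    rw [h2]
    have h3 := (all_alg2 A C B f g hf hg).1
    unfold rmap
    rw [pulls_eq h3, pulls_eq hg, pulls_eq hf]
    rfl

end Pool.Agent.Lib.MP_a78e1f_lc.H74
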