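import Pool.Agent.Lib.MP_a78e1f_lc.K.Iface

/-!
Module PRCF: composition of extensions which preserve capturing slaloms.
-/

set_option autoImplicit false

universe u v w

open Cardinal Filter MeasureTheory

namespace Pool.Agent.Lib.MP_a78e1f_lc.H74

open Pool.Agent.Lib.MP_100a6c_lc
open Pool.Agent.Lib.MP_e6fef2_lc
open Pool.Agent.Lib.MP_6d445e_gt (Idw Ult ae IsFN fv Cmp)
open Pool.Agent.Lib.MP_a78e1f_lc

section

variable {A B C : Type u} [CompleteBooleanAlgebra A] [CompleteBooleanAlgebra B]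
  [CompleteBooleanAlgebra C]

/-- `Z` on `a`, the code `e` outside `a`. -/
noncomputable def cutF (e : ℕ) (a : A) (Z : ℕ → ℕ → A) (p m : ℕ) : A :=
  (Z p m ⊓ a) ⊔ (⨆ _ : m = e, aᶜ)

theorem mem_cutF {e : ℕ} {a : A} {Z : ℕ → ℕ → A} {p m : ℕ} (h : Ult A) :
    cutF e a Z p m ∈ h ↔ (Z p m ∈ h ∧ a ∈ h) ∨ (m = e ∧ a ∉ h) := by
  unfold cutF
  by_cases hm : m = e
  · rw [iSup_pos hm, h.mem_sup, h.mem_inf, h.mem_compl]
    simp [hm]
  · rw [iSup_neg hm, sup_bot_eq, h.mem_inf]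
    simp [hm]

theorem cutF_fv_pos {e : ℕ} {a : A} {Z : ℕ → ℕ → A} {h : Ult A} (ha : a ∈ h) (p : ℕ) :
    fv (cutF e a Z) h p = fv Z h p := by
  unfold fv
  congr 1
  ext k
  simp only [Set.mem_ofPred_eq, mem_cutF]
  simp [ha]

theorem cutF_fv_neg {e : ℕ} {a : A} {Z : ℕ → ℕ → A} {h : Ult A} (ha : a ∉ h) (p : ℕ) :
    fv (cutF e a Z) h p = e := by
  unfold fv
  have : {k | cutF e a Z p k ∈ h} = {e} := by
    ext k
    simp only [Set.mem_ofPred_eq, mem_cutF, Set.mem_singleton_iff]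
    simp [ha]
  rw [this, csInf_singleton]

theorem isFN_cutF {e : ℕ} {a : A} {Z : ℕ → ℕ → A} (hZ : IsFN Z) : IsFN (cutF e a Z) := by
  unfold IsFN at hZ ⊢
  filter_upwards [hZ] with h hh n
  by_cases ha : a ∈ h
  · obtain ⟨k, hk, hu⟩ := hh n
    refine ⟨k, (mem_cutF h).2 (Or.inl ⟨hk, ha⟩), fun k' hk' => ?_⟩
    rcases (mem_cutF h).1 hk' with h1 | h1
    · exact hu k' h1.1
    · exact absurd ha h1.2
  · refine ⟨e, (mem_cutF h).2 (Or.inr ⟨rfl, ha⟩), fun k' hk' => ?_⟩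
    rcases (mem_cutF h).1 hk' with h1 | h1
    · exact absurd h1.2 ha
    · exact h1.1

theorem le_cutF (e : ℕ) (a : A) (Z : ℕ → ℕ → A) (p m : ℕ) : Z p m ⊓ a ≤ cutF e a Z p m :=
  le_sup_left

/-- the agreement with `F` is the same on `a` -/
theorem agr_cutF_right (f : A → B) (Z : ℕ → ℕ → A) (e : ℕ) (b : B) (F : ℕ → ℕ → B) (k : ℕ) :
    agrF f Z F k ⊓ b ≤ agrF f Z (cutF e b F) k := by
  unfold agrF
  refine le_iInf₂ fun p hp => ?_
  refine (inf_le_inf_right b (iInf₂_le p hp)).trans ?_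
  rw [iSup_inf_eq]
  refine iSup_mono fun j => ?_
  rw [inf_assoc]
  exact inf_le_inf_left _ (le_cutF e b F p j)

theorem agr_cutF_left {g : B → C} (hg : IsCE g) (Z : ℕ → ℕ → B) (e : ℕ) (b : B)
    (F : ℕ → ℕ → C) (k : ℕ) : agrF g Z F k ⊓ g b ≤ agrF g (cutF e b Z) F k := by
  have hA := all_alg B C g hg
  unfold agrF
  refine le_iInf₂ fun p hp => ?_
  refine (inf_le_inf_right (g b) (iInf₂_le p hp)).trans ?_
  rw [iSup_inf_eq]
  refine iSup_mono fun j => ?_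
  have h1 : g (Z p j) ⊓ g b ≤ g (cutF e b Z p j) := by
    rw [← hA.2.2.1]
    exact (hA.2.2.2.2.1 _ _).2 (le_cutF e b Z p j)
  calc g (Z p j) ⊓ F p j ⊓ g b = (g (Z p j) ⊓ g b) ⊓ F p j := by
        rw [inf_right_comm]
    _ ≤ g (cutF e b Z p j) ⊓ F p j := inf_le_inf_right _ h1

end

/-- Module PRCF. -/
theorem prcf (hI : ItpfStatement.{u}) (hLB : LbfStatement.{u}) (hI2 : Itp2fStatement.{u}) :
    PrcfStatement.{u} := by
  intro A B C _ _ _ f g hf hg h1 h2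
  have hAf := all_alg A B f hf
  have hAg := all_alg B C g hg
  obtain ⟨e, he⟩ : ∃ e : ℕ, dS e = ∅ := by
    unfold dS
    exact Finset.equivBitIndices.surjective ∅
  -- the interpretation, as a function of the names
  have hex : ∀ (c : C) (F : ℕ → ℕ → C) (Y : ℕ → ℕ → B), ∃ Z : ℕ → ℕ → B, IsFN F → IsFN Y →
      IsFN Z ∧ prj g c ≤ itpF g c F Z ∧
        ∀ k, prj g (c ⊓ agrF g Y F k) ≤ agrF (fun a : B => a) Y Z k := by
    intro c F Y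
    by_cases h : IsFN F ∧ IsFN Y
    · obtain ⟨Z, hZ⟩ := hLB B C g hg c F Y h.1 h.2
      exact ⟨Z, fun _ _ => hZ⟩
    · exact ⟨fun _ _ => ⊥, fun h3 h4 => absurd ⟨h3, h4⟩ h⟩
  choose z' hz' using hex
  let Φ : (C × (ℕ → ℕ → C)) × (ℕ → ℕ → A) → ℕ → ℕ → B :=
    fun q => cutF e (prj g q.1.1) (z' q.1.1 q.1.2 fun p m => f (q.2 p m))
  filter_upwards [h1, h2, all_club.2.2.2.2.2.1 C B (prj g),
    all_club.2.2.2.2.2.1 ((C × (ℕ → ℕ → C)) × (ℕ → ℕ → A)) (ℕ → ℕ → B) Φ,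
    all_club.2.2.2.2.2.2.1 C (ℕ → ℕ → C) (C × (ℕ → ℕ → C)) Prod.mk,
    all_club.2.2.2.2.2.2.1 (C × (ℕ → ℕ → C)) (ℕ → ℕ → A) ((C × (ℕ → ℕ → C)) × (ℕ → ℕ → A))
      Prod.mk]
    with N hN1 hN2 hN3 hN4 hN5 hN6 S c F Z hS hc hF hFF hsl hZ hZF
  obtain ⟨j, hj⟩ := hsl
  have hΦN : In N (Φ ((c, F), Z)) := hN4 _ (hN6 _ _ (hN5 _ _ hc hF) hZ)
  have hpc : In N (prj g c) := hN3 c hc
  obtain ⟨Z', hZ'⟩ : ∃ Z', Z' = z' c F fun p m => f (Z p m) := ⟨_, rfl⟩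
  obtain ⟨Z'', hZ''⟩ : ∃ Z'', Z'' = cutF e (prj g c) Z' := ⟨_, rfl⟩
  have hΦ : Φ ((c, F), Z) = Z'' := by rw [hZ'', hZ']
  rw [hΦ] at hΦN
  have hfZ : IsFN fun p m => f (Z p m) := (hI A B f hf).2.2.2.2.2.2.2.1 Z hZF
  have hz := hz' c F (fun p m => f (Z p m)) hFF hfZ
  rw [← hZ'] at hz
  obtain ⟨z1, z2, z3⟩ := hz
  have hZfn : IsFN Z'' := by rw [hZ'']; exact isFN_cutF z1
  have i2 : prj g c ≤ itpF g c F Z'' := by
    refine le_iInf fun k => ?_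
    have j1 : prj g c ≤ prj g (c ⊓ agrF g Z' F k) := z2.trans (iInf_le _ k)
    refine j1.trans (hAg.2.2.2.2.2.2.2.2.2.2.2.2.1 _ _ (le_inf inf_le_left ?_))
    rw [hZ'']
    refine le_trans ?_ (agr_cutF_left hg Z' e (prj g c) F k)
    exact le_inf inf_le_right (inf_le_left.trans (hAg.2.2.2.2.2.2.2.2.2.1 c))
  have a1 : ∀ k, prj g (c ⊓ agrF (fun a => g (f a)) Z F k) ≤ agrF f Z Z'' k := by
    intro k
    have j1 : prj g (c ⊓ agrF (fun a => g (f a)) Z F k) ≤ agrF f Z Z' k := z3 k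
    have j2 : prj g (c ⊓ agrF (fun a => g (f a)) Z F k) ≤ prj g c :=
      hAg.2.2.2.2.2.2.2.2.2.2.2.2.1 _ _ inf_le_left
    rw [hZ'']
    exact (le_inf j1 j2).trans (agr_cutF_right f Z e (prj g c) Z' k)
  have s2 : SlF j ⊤ Z'' := by
    have j1 : SlF j c F := by
      unfold SlF at hj ⊢
      filter_upwards [hj] with h hh _
      exact hh h.mem_top
    have j2 : SlF j (itpF g c F Z') Z' := (hI B C g hg).2.2.2.2.2.2.1 c F Z' j hFF z1 j1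
    unfold SlF at j2 ⊢
    filter_upwards [j2] with h hh _ p
    rw [hZ'']
    by_cases hp : prj g c ∈ h
    · rw [cutF_fv_pos hp]
      exact hh (h.mono z2 hp) p
    · rw [cutF_fv_neg hp, he]
      simp
  have hfS : IsFN fun p m => f (S p m) := (hI A B f hf).2.2.2.2.2.2.2.1 S hS
  have p1 := hN1 S (prj g c) Z'' Z hS hpc hΦN hZfn ⟨j, s2⟩ hZ hZF
  have p2 := hN2 (fun p m => f (S p m)) c F Z'' hfS hc hF hFF ⟨j, hj⟩ hΦN hZfn
  have p3 : itpF (fun a => g (f a)) c F Z ≤ itpF f (prj g c) Z'' Z :=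
    hI2 A B C f g hf hg c F Z Z'' a1
  rw [(all_alg2 A B C f g hf hg).2.1]
  refine (inf_le_inf_right _ (inf_le_inf_left _ p3)).trans (p1.trans ?_)
  refine hAf.2.2.2.2.2.2.2.2.2.2.2.2.1 _ _ (le_trans ?_ p2)
  exact inf_le_inf_right _ (inf_le_inf_left _ i2)

end Pool.Agent.Lib.MP_a78e1f_lc.H74
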